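import Mathlib
import Pool.Agent.Helper41.LF.GoalsB

set_option autoImplicit false

namespace Pool.Agent.Helper41.LF

open MeasureTheory Finset Pool.Agent.Helper92

theorem cell_Econ_pos (d : ℕ) (R : ℝ) (hd : 1 ≤ d) (hR : 1 ≤ R) : 0 < Econ d R := by
  unfold Econ
  have h1 : (0 : ℝ) < (d : ℝ) := by exact_mod_cast hd
  have h2 : (0 : ℝ) < R + 2 := by linarith
  positivity

theorem cell_Econ_ge (d : ℕ) (R : ℝ) (hd : 1 ≤ d) (hR : 1 ≤ R) : 1 ≤ Econ d R := by
  unfold Econ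
  have h1 : (1 : ℝ) ≤ (d : ℝ) := by exact_mod_cast hd
  have h2 : (1 : ℝ) ≤ (R + 2) ^ d := one_le_pow₀ (by linarith)
  have h3 : (1 : ℝ) ≤ (d : ℝ) ^ 2 := one_le_pow₀ h1
  nlinarith [mul_le_mul h3 h2 (by norm_num) (by positivity)]

theorem cell_mesh_pos (d : ℕ) (R : ℝ) (H M : ℕ) (hd : 1 ≤ d) (hR : 1 ≤ R) (hH : 1 ≤ H)
    (hM : 1 ≤ M) : 0 < mesh d R H M := by
  unfold mesh
  have h1 := cell_Econ_pos d R hd hR
  have h2 : (0 : ℝ) < (H : ℝ) := by exact_mod_cast hH
  have h3 : (0 : ℝ) < (M : ℝ) := by exact_mod_cast hM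
  positivity

theorem cell_mesh_le (d : ℕ) (R : ℝ) (H M : ℕ) (hd : 1 ≤ d) (hR : 1 ≤ R) (hH : 1 ≤ H)
    (hM : 1 ≤ M) : mesh d R H M ≤ 1 := by
  unfold mesh
  have h1 := cell_Econ_ge d R hd hR
  have h2 : (1 : ℝ) ≤ (H : ℝ) := by exact_mod_cast hH
  have h3 : (1 : ℝ) ≤ (M : ℝ) := by exact_mod_cast hM
  have h4 : 1 ≤ Econ d R * M := by nlinarith
  have h5 : 1 ≤ Econ d R * M * H := by nlinarith
  rw [div_le_one (by linarith)]
  exact h5

theorem thm_CELL (hM : S_MEAS) (hP : S_PERT) : S_CELL := by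
  intro d R hd hR
  obtain ⟨C0, θ, hC0, hθ, hmeas⟩ := hM d (R + 2) hd (by linarith)
  have hE := cell_Econ_pos d R hd hR
  refine ⟨C0 * 2 ^ θ * Econ d R, θ, by positivity, hθ, ?_⟩
  intro H M hH hM1 Z hZ
  have hh := cell_mesh_pos d R H M hd hR hH hM1
  have hh1 := cell_mesh_le d R H M hd hR hH hM1
  have hdpos : (0 : ℝ) < (d : ℝ) := by exact_mod_cast hd
  have hd1 : (1 : ℝ) ≤ (d : ℝ) := by exact_mod_cast hd
  have hHpos : (0 : ℝ) < (H : ℝ) := by exact_mod_cast hH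
  have hH1 : (1 : ℝ) ≤ (H : ℝ) := by exact_mod_cast hH
  have hMpos : (0 : ℝ) < (M : ℝ) := by exact_mod_cast hM1
  set h := mesh d R H M with hhdef
  have hhval : h * (Econ d R * M * H) = 1 := by
    rw [hhdef]; unfold mesh
    field_simp
  -- the set of the measure bound
  set S : Set ℝ := {x : ℝ | x ∈ Set.Icc (-(R + 2)) (R + 2) ∧
    ∃ b : ℕ, 1 ≤ b ∧ b ≤ 2 * M ∧ Near d (1 / (d * H)) x b} with hS
  have hsub : (⋃ k ∈ Z, Set.Ico ((k : ℝ) * h) (((k : ℝ) + 1) * h)) ⊆ S := by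
    intro x hx
    simp only [Set.mem_iUnion] at hx
    obtain ⟨k, hk, hx1, hx2⟩ := hx
    obtain ⟨ξ, hξR, hξk, b, hb1, hb2, hnear⟩ := hZ k hk
    have hxk : |x - k * h| ≤ h := by
      rw [abs_le]; constructor <;> nlinarith
    have hxξ : |x - ξ| ≤ 2 * h := by
      have : x - ξ = (x - k * h) - (ξ - k * h) := by ring
      rw [this]
      calc |(x - k * h) - (ξ - k * h)| ≤ |x - k * h| + |ξ - k * h| := abs_sub _ _
        _ ≤ 2 * h := by linarith
    have hxR : |x| ≤ R + 2 := by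
      have : x = (x - ξ) + ξ := by ring
      rw [this]
      calc |(x - ξ) + ξ| ≤ |x - ξ| + |ξ| := abs_add_le _ _
        _ ≤ R + 2 := by linarith
    refine ⟨abs_le.mp hxR, b, le_trans hM1 hb1, hb2.le, ?_⟩
    refine hP d b (R + 2) (1 / (3 * d * H)) (1 / (d * H)) x ξ (by linarith) hxR (by linarith) hnear ?_
    have hbM : (b : ℝ) ≤ 2 * M := by exact_mod_cast hb2.le
    have hQ : (0 : ℝ) < (R + 2) ^ d := by
      have : 0 < R + 2 := by linarith
      positivity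
    have e1 : (b : ℝ) * (d * (R + 2) ^ d * |x - ξ|) ≤ 2 * M * (d * (R + 2) ^ d * (2 * h)) := by
      gcongr
    have e2 : 2 * (M : ℝ) * (d * (R + 2) ^ d * (2 * h)) = 1 / (12 * (d * H)) := by
      rw [hhdef]; unfold mesh Econ
      field_simp
      ring
    have e3 : (1 : ℝ) / (3 * d * H) + 1 / (12 * (d * H)) ≤ 1 / (d * H) := by
      have hdH : (0 : ℝ) < d * H := by positivity
      have : (1 : ℝ) / (3 * d * H) + 1 / (12 * (d * H)) = (5 / 12) * (1 / (d * H)) := by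
        field_simp
        norm_num
      rw [this]
      have h0 : (0 : ℝ) < 1 / (d * H) := by positivity
      linarith
    linarith
  have hvol : volume (⋃ k ∈ Z, Set.Ico ((k : ℝ) * h) (((k : ℝ) + 1) * h)) =
      ENNReal.ofReal ((Z.card : ℝ) * h) := by
    rw [measure_biUnion_finset]
    · have : ∀ k ∈ Z, volume (Set.Ico ((k : ℝ) * h) (((k : ℝ) + 1) * h)) = ENNReal.ofReal h := by
        intro k _
        rw [Real.volume_Ico]
        congr 1
        ring
      rw [Finset.sum_congr rfl this, Finset.sum_const, nsmul_eq_mul,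
        ENNReal.ofReal_mul (by positivity), ENNReal.ofReal_natCast]
    · intro i _ j _ hij
      simp only [Function.onFun]
      rw [Set.disjoint_left]
      rintro x ⟨h1, h2⟩ ⟨h3, h4⟩
      apply hij
      have a1 : (i : ℝ) < j + 1 := by
        by_contra hc
        push Not at hc
        nlinarith
      have a2 : (j : ℝ) < i + 1 := by
        by_contra hc
        push Not at hc
        nlinarith
      have b1 : i < j + 1 := by exact_mod_cast a1
      have b2 : j < i + 1 := by exact_mod_cast a2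
      omega
    · intro k _
      exact measurableSet_Ico
  have hτ1 : (1 : ℝ) / (d * H) ≤ 1 := by
    rw [div_le_one (by positivity)]
    nlinarith
  have hm := hmeas (2 * M) (1 / (d * H)) (by omega) (by positivity) hτ1
  have hle : ENNReal.ofReal ((Z.card : ℝ) * h) ≤
      ENNReal.ofReal (C0 * (((2 * M : ℕ) : ℝ) * (1 / (d * H)) ^ d) ^ θ) := by
    rw [← hvol]
    exact le_trans (measure_mono hsub) hm
  have hle2 : (Z.card : ℝ) * h ≤ C0 * (((2 * M : ℕ) : ℝ) * (1 / (d * H)) ^ d) ^ θ := by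
    rwa [ENNReal.ofReal_le_ofReal_iff (by positivity)] at hle
  have hle3 : (((2 * M : ℕ) : ℝ) * (1 / (d * H)) ^ d) ^ θ ≤ 2 ^ θ * ((M : ℝ) / (H : ℝ) ^ d) ^ θ := by
    rw [← Real.mul_rpow (by norm_num) (by positivity)]
    apply Real.rpow_le_rpow (by positivity) _ hθ.le
    push_cast
    have : ((1 : ℝ) / (d * H)) ^ d ≤ 1 / (H : ℝ) ^ d := by
      rw [div_pow, one_pow, mul_pow]
      apply one_div_le_one_div_of_le (by positivity)
      have : (1 : ℝ) ≤ (d : ℝ) ^ d := one_le_pow₀ hd1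
      nlinarith [pow_pos hHpos d]
    calc 2 * (M : ℝ) * ((1 : ℝ) / (d * H)) ^ d ≤ 2 * (M : ℝ) * (1 / (H : ℝ) ^ d) := by gcongr
      _ = 2 * ((M : ℝ) / (H : ℝ) ^ d) := by ring
  calc (Z.card : ℝ) = ((Z.card : ℝ) * h) * (Econ d R * M * H) := by
        rw [mul_assoc, hhval, mul_one]
    _ ≤ (C0 * (2 ^ θ * ((M : ℝ) / (H : ℝ) ^ d) ^ θ)) * (Econ d R * M * H) := by
        apply mul_le_mul_of_nonneg_right _ (by positivity)
        exact hle2.trans (mul_le_mul_of_nonneg_left hle3 hC0.le)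
    _ = C0 * 2 ^ θ * Econ d R * M * H * ((M : ℝ) / (H : ℝ) ^ d) ^ θ := by ring

end Pool.Agent.Helper41.LF
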